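import Mathlib

/-! Project CG: the cogenerator need not be power bounded (`MP_413ec1_an`). -/

set_option autoImplicit false

namespace W802.CG

/-- uniform decay of an oscillatory integral -/
def S_OSC : Prop := ∀ ε : ℝ, 0 < ε → ∃ N : ℕ, ∀ n : ℕ, N ≤ n → ∀ a b : ℝ,
  ‖∫ x in (1 : ℝ)..2, Complex.exp (Complex.I * ((a * x + b / x - 2 * n * Real.arctan x : ℝ) : ℂ))‖
    ≤ ε

end W802.CG
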